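import Mathlib

namespace Pool.Agent.Results.MP_a6d22b_an.No

open Set Metric Filter Topology Polynomial Complex
open scoped Real ComplexConjugate

/-- `f` is on `X` a uniform limit of rational functions with poles off `X` -/
def InR (X : Set ℂ) (f : ℂ → ℂ) : Prop :=
  ∀ ε > 0, ∃ p q : ℂ[X], (∀ z ∈ X, q.eval z ≠ 0) ∧ ∀ z ∈ X, ‖f z - p.eval z / q.eval z‖ < ε

/-- continuous on `X`, holomorphic inside, and the derivative extends continuously to `X` -/
def InA1 (X : Set ℂ) (f : ℂ → ℂ) : Prop :=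
  ContinuousOn f X ∧ DifferentiableOn ℂ f (interior X) ∧
    ∃ g : ℂ → ℂ, ContinuousOn g X ∧ EqOn (deriv f) g (interior X)

/-- centres -/
noncomputable def s : ℕ → ℂ := TopologicalSpace.denseSeq ℂ

/-- radii of the holes -/
noncomputable def r (k : ℕ) : ℝ :=
  max 0 ((Finset.univ : Finset (Fin k)).fold min (min ((1 / 2) ^ (k + 2)) ((1 - ‖s k‖) / 2))
    fun j : Fin k => if 0 < r j then (‖s k - s j‖ - r j) / 2 else 1)
decreasing_by all_goals exact j.2

theorem r_nonneg (k : ℕ) : 0 ≤ r k := by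
  rw [r]
  exact le_max_left _ _

theorem r_pos {k : ℕ} (h : 0 < r k) : r k ≤ (1 / 2) ^ (k + 2) ∧ r k ≤ (1 - ‖s k‖) / 2 ∧
    ∀ j < k, 0 < r j → r k ≤ (‖s k - s j‖ - r j) / 2 := by
  have h1 := h
  rw [r, lt_max_iff, or_iff_right (lt_irrefl _)] at h1
  have h2 := (r.eq_1 k).trans (max_eq_right h1.le)
  obtain ⟨h3, h4⟩ := (Finset.le_fold_min _).1 h2.le
  exact ⟨(le_min_iff.1 h3).1, (le_min_iff.1 h3).2, fun j hj h5 => by
    simpa [h5] using h4 ⟨j, hj⟩ (Finset.mem_univ _)⟩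

theorem r_le (k : ℕ) : r k ≤ (1 / 2) ^ (k + 2) := by
  rcases (r_nonneg k).eq_or_lt with h | h
  · rw [← h]
    positivity
  · exact (r_pos h).1

theorem r_in {k : ℕ} (h : 0 < r k) {z : ℂ} (hz : ‖z - s k‖ ≤ r k) : ‖z‖ < 1 := by
  linarith [(r_pos h).2.1, norm_le_insert' z (s k)]

theorem r_disj {j k : ℕ} (hj : 0 < r j) (hk : 0 < r k) {z : ℂ} (h1 : ‖z - s j‖ ≤ r j)
    (h2 : ‖z - s k‖ ≤ r k) : j = k := by
  by_contra h
  wlog h3 : j < k generalizing j k
  · exact this hk hj h2 h1 (Ne.symm h) (by omega)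
  have h4 := (r_pos hk).2.2 j h3 hj
  have h5 := norm_sub_le_norm_sub_add_norm_sub (s k) z (s j)
  rw [norm_sub_rev (s k) z] at h5
  linarith

theorem r_cov {k : ℕ} (h : ‖s k‖ < 1) : ∃ j, 0 < r j ∧ ‖s k - s j‖ ≤ r j := by
  rcases (r_nonneg k).eq_or_lt with h1 | h1
  · rw [r] at h1
    rcases (Finset.fold_min_le _).1 ((le_max_right _ _).trans h1.ge) with h2 | ⟨j, -, h2⟩
    · exact absurd h2 (not_le.2 (lt_min (by positivity) (by linarith)))
    · split_ifs at h2 with h3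
      · exact ⟨j, h3, by linarith⟩
      · linarith
  · exact ⟨k, h1, by simpa using h1.le⟩

theorem r_sum : HasSum (fun k : ℕ => (1 / 2 : ℝ) ^ (k + 2)) (1 / 2) := by
  have h := hasSum_geometric_two.mul_left (1 / 4)
  rw [show (1 / 4 * 2 : ℝ) = 1 / 2 by norm_num] at h
  exact h.congr_fun fun k => by ring

theorem near {z : ℂ} (h1 : ‖z‖ ≤ 1) (h2 : ∀ n, r n ≤ ‖z - s n‖) {ε : ℝ} (hε : 0 < ε) :
    ∃ j, 0 < r j ∧ ‖s j - z‖ + r j < ε := by
  obtain ⟨N, hN⟩ := exists_pow_lt_of_lt_one (by positivity : 0 < ε / 4) (by norm_num : (1 / 2 : ℝ) < 1)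
  have hO : ∀ t : Set ℕ, IsOpen (ball z (ε / 4) ∩ ⋂ m ∈ {m ∈ Iio N | m ∈ t},
      (closedBall (s m) (r m))ᶜ) := fun t => isOpen_ball.inter
    (((finite_Iio N).subset fun _ h => h.1).isOpen_biInter fun _ _ => isClosed_closedBall.isOpen_compl)
  have h3 : ((ball z (ε / 4) ∩ ⋂ m ∈ {m ∈ Iio N | m ∈ {m | 0 < r m}}, (closedBall (s m) (r m))ᶜ) ∩
      ball 0 1).Nonempty := by
    by_cases h : ∃ n, 0 < r n ∧ ‖z - s n‖ ≤ r n
    · obtain ⟨n, h4, h5⟩ := h
      have h6 : z ∈ closure (closedBall (s n) (r n))ᶜ := by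
        rw [closure_compl, interior_closedBall _ h4.ne', mem_compl_iff, mem_ball_iff_norm, not_lt]
        exact h2 n
      obtain ⟨w, ⟨⟨h7, h8⟩, h9⟩, h10⟩ := mem_closure_iff.1 h6 _
        ((hO {m | 0 < r m ∧ m ≠ n}).inter (isOpen_ball (x := 0) (ε := 1)))
        ⟨⟨mem_ball_self (by positivity), mem_iInter₂.2 fun m hm h7 =>
          hm.2.2 (r_disj hm.2.1 h4 (mem_closedBall_iff_norm.1 h7) h5)⟩,
          mem_ball_zero_iff.2 (r_in h4 h5)⟩
      refine ⟨w, ⟨h7, mem_iInter₂.2 fun m hm => ?_⟩, h9⟩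
      by_cases h11 : m = n
      · rwa [h11]
      · exact mem_iInter₂.1 h8 m ⟨hm.1, hm.2, h11⟩
    · have h6 : z ∈ closure (ball (0 : ℂ) 1) := by
        rwa [closure_ball _ one_ne_zero, mem_closedBall_zero_iff]
      exact mem_closure_iff.1 h6 _ (hO _) ⟨mem_ball_self (by positivity),
        mem_iInter₂.2 fun m hm h7 => h ⟨m, hm.2, mem_closedBall_iff_norm.1 h7⟩⟩
  obtain ⟨k, ⟨h4, h5⟩, h6⟩ := (TopologicalSpace.denseRange_denseSeq ℂ).exists_mem_open
    ((hO _).inter isOpen_ball) h3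
  obtain ⟨j, h7, h8⟩ := r_cov (k := k) (mem_ball_zero_iff.1 h6)
  have h9 : N ≤ j := not_lt.1 fun h9 =>
    mem_iInter₂.1 h5 j ⟨h9, h7⟩ (mem_closedBall_iff_norm.2 h8)
  have h10 : r j ≤ (1 / 2) ^ N :=
    (r_le j).trans (pow_le_pow_of_le_one (by norm_num) (by norm_num) (by omega))
  have h11 : ‖s k - z‖ < ε / 4 := mem_ball_iff_norm.1 h4
  have h12 := norm_sub_le_norm_sub_add_norm_sub (s j) (s k) z
  rw [norm_sub_rev (s j) (s k)] at h12
  exact ⟨j, h7, by linarith⟩

/-- Swiss cheese with discs put into the holes -/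
def X : Set ℂ := {z | ‖z‖ ≤ 1 ∧ ∀ n, r n ≤ ‖z - s n‖ ∨ ‖z - s n‖ ≤ r n / 2}

theorem X_compact : IsCompact X := by
  refine (isCompact_closedBall 0 1).of_isClosed_subset ?_ fun z hz => mem_closedBall_zero_iff.2 hz.1
  simp only [X, ofPred_and, ofPred_forall, ofPred_or]
  exact (isClosed_le (by fun_prop) (by fun_prop)).inter (isClosed_iInter fun n =>
    (isClosed_le (by fun_prop) (by fun_prop)).union (isClosed_le (by fun_prop) (by fun_prop)))

theorem mem_X {n : ℕ} (h : 0 < r n) {z : ℂ} (hz : ‖z - s n‖ = r n ∨ ‖z - s n‖ ≤ r n / 2) :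
    z ∈ X := by
  have h1 : ‖z - s n‖ ≤ r n := by rcases hz with hz | hz <;> linarith
  refine ⟨(r_in h h1).le, fun m => ?_⟩
  by_cases h2 : m = n
  · rw [h2]
    exact hz.imp_left Eq.ge
  · refine Or.inl (not_lt.1 fun h3 => h2 (r_disj ((norm_nonneg _).trans_lt h3) h h3.le h1))

theorem mem_X' {z : ℂ} (hz : ‖z‖ = 1) : z ∈ X ∧ ∀ n, r n ≤ ‖z - s n‖ := by
  have h : ∀ n, r n ≤ ‖z - s n‖ := fun n => not_lt.1 fun h =>
    (r_in ((norm_nonneg _).trans_lt h) h.le).ne hz
  exact ⟨⟨hz.le, fun n => Or.inl (h n)⟩, h⟩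

theorem X_cases {z : ℂ} (hz : z ∈ X) :
    (∀ n, r n ≤ ‖z - s n‖) ∨ ∃ n, 0 < r n ∧ ‖z - s n‖ ≤ r n / 2 := by
  by_cases h : ∀ n, r n ≤ ‖z - s n‖
  · exact Or.inl h
  · obtain ⟨n, hn⟩ := not_forall.1 h
    exact Or.inr ⟨n, (norm_nonneg _).trans_lt (not_le.1 hn), (hz.2 n).resolve_left hn⟩

theorem ball_sub {n : ℕ} (h : 0 < r n) : ball (s n) (r n / 2) ⊆ interior X :=
  interior_maximal (fun _ hz => mem_X h (Or.inr (mem_ball_iff_norm.1 hz).le)) isOpen_ball

theorem X_dense : X ⊆ closure (interior X) := fun z hz => by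
  rcases X_cases hz with h | ⟨n, h1, h2⟩
  · refine Metric.mem_closure_iff.2 fun ε hε => ?_
    obtain ⟨j, h1, h2⟩ := near hz.1 h hε
    refine ⟨s j, ball_sub h1 (mem_ball_self (by positivity)), ?_⟩
    rw [dist_comm, dist_eq_norm]
    linarith
  · refine closure_mono (ball_sub h1) ?_
    rwa [closure_ball _ (by positivity), mem_closedBall_iff_norm]

/-- bumps -/
noncomputable def φ (n : ℕ) (z : ℂ) : ℂ :=
  (z - s n) * (max 0 (min 1 (2 * (r n - ‖z - s n‖) / r n)) : ℝ)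

theorem φ_zero {n : ℕ} {z : ℂ} (h : r n ≤ ‖z - s n‖) : φ n z = 0 := by
  rw [φ, max_eq_left ((min_le_right _ _).trans
    (div_nonpos_of_nonpos_of_nonneg (by linarith) (r_nonneg n)))]
  simp

theorem φ_le (n : ℕ) (z : ℂ) : ‖φ n z‖ ≤ (1 / 2) ^ (n + 2) := by
  rcases le_total (r n) ‖z - s n‖ with h | h
  · rw [φ_zero h, norm_zero]
    positivity
  · rw [φ, norm_mul, norm_real, Real.norm_of_nonneg (le_max_left _ _)]
    exact (mul_le_of_le_one_right (norm_nonneg _) (max_le zero_le_one (min_le_left _ _))).trans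
      (h.trans (r_le n))

/-- the function -/
noncomputable def f (z : ℂ) : ℂ := conj (z - ∑' n, φ n z)

theorem f_cont : Continuous f :=
  continuous_conj.comp (continuous_id.sub (continuous_tsum (fun n => by unfold φ; fun_prop)
    r_sum.summable φ_le))

theorem f_out {z : ℂ} (h : ∀ n, r n ≤ ‖z - s n‖) : f z = conj z := by
  simp [f, fun n => φ_zero (h n)]

theorem f_in {n : ℕ} (h : 0 < r n) {z : ℂ} (hz : ‖z - s n‖ ≤ r n / 2) : f z = conj (s n) := by
  rw [f, tsum_eq_single n fun m hm => φ_zero (not_lt.1 fun h3 =>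
    hm (r_disj ((norm_nonneg _).trans_lt h3) h h3.le (by linarith))), φ,
    min_eq_left ((one_le_div h).2 (by linarith))]
  simp

theorem f_loc {z : ℂ} (hz : z ∈ interior X) : ∃ c, f =ᶠ[𝓝 z] fun _ => c := by
  rcases X_cases (interior_subset hz) with h | ⟨n, h1, h2⟩
  · obtain ⟨ε, hε, h1⟩ := Metric.mem_nhds_iff.1 (mem_interior_iff_mem_nhds.1 hz)
    obtain ⟨j, h2, h3⟩ := near (interior_subset hz).1 h hε
    have h4 : ‖s j + (3 / 4 * r j : ℝ) - s j‖ = 3 / 4 * r j := by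
      rw [add_sub_cancel_left, norm_real, Real.norm_of_nonneg (by positivity)]
    have h5 := (h1 (a := s j + (3 / 4 * r j : ℝ)) (mem_ball_iff_norm.2 (by
      linarith [norm_sub_le_norm_sub_add_norm_sub (s j + (3 / 4 * r j : ℝ)) (s j) z]))).2 j
    rw [h4] at h5
    rcases h5 with h5 | h5 <;> linarith
  · refine ⟨conj (s n), ?_⟩
    filter_upwards [mem_interior_iff_mem_nhds.1 hz,
      isOpen_ball.mem_nhds (mem_ball_iff_norm.2 (by linarith : ‖z - s n‖ < r n))] with w h3 h4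
    exact f_in h1 ((h3.2 n).resolve_left (not_le.2 (mem_ball_iff_norm.1 h4)))

/-- functions killed by the boundary functional -/
def Z (g : ℂ → ℂ) : Prop :=
  ContinuousOn g X ∧ HasSum (fun n => ∮ z in C(s n, r n), g z) (∮ z in C(0, 1), g z)

theorem sph0 : sphere (0 : ℂ) 1 ⊆ X := fun _ hz => (mem_X' (mem_sphere_zero_iff_norm.1 hz)).1

theorem sph {n : ℕ} (h : 0 < r n) : sphere (s n) (r n) ⊆ X := fun _ hz =>
  mem_X h (Or.inl (mem_sphere_iff_norm.1 hz))

theorem ci {g : ℂ → ℂ} (h : ContinuousOn g X) (n : ℕ) : CircleIntegrable g (s n) (r n) := by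
  rcases (r_nonneg n).eq_or_lt with h1 | h1
  · rw [← h1]
    exact circleIntegrable_zero_radius
  · exact (h.mono (sph h1)).circleIntegrable h1.le

theorem Z.congr {g g' : ℂ → ℂ} (h : Z g) (h1 : EqOn g g' X) : Z g' := by
  refine ⟨h.1.congr h1.symm, ?_⟩
  rw [← circleIntegral.integral_congr zero_le_one (h1.mono sph0)]
  convert h.2 using 2 with n
  rcases (r_nonneg n).eq_or_lt with h2 | h2
  · simp [← h2]
  · exact circleIntegral.integral_congr h2.le (h1.symm.mono (sph h2))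

theorem Z.add {g g' : ℂ → ℂ} (h : Z g) (h' : Z g') : Z fun z => g z + g' z := by
  refine ⟨h.1.add h'.1, ?_⟩
  rw [circleIntegral.integral_add ((h.1.mono sph0).circleIntegrable zero_le_one)
    ((h'.1.mono sph0).circleIntegrable zero_le_one)]
  simpa only [fun n => circleIntegral.integral_add (ci h.1 n) (ci h'.1 n)] using h.2.add h'.2

theorem Z.mul {g : ℂ → ℂ} (h : Z g) (c : ℂ) : Z fun z => c * g z := by
  refine ⟨continuousOn_const.mul h.1, ?_⟩
  simpa only [circleIntegral.integral_const_mul] using h.2.mul_left c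

theorem inv_zero {a c : ℂ} {R : ℝ} (hR : 0 ≤ R) (h : R < ‖a - c‖) :
    ∮ z in C(c, R), (z - a)⁻¹ = 0 := by
  have h1 : ∀ z ∈ closedBall c R, z - a ≠ 0 := fun z hz h1 => by
    rw [sub_eq_zero.1 h1] at hz
    exact h.not_ge (mem_closedBall_iff_norm.1 hz)
  exact circleIntegral_eq_zero_of_differentiable_on_off_countable hR countable_empty
    (ContinuousOn.inv₀ (by fun_prop) h1) fun z hz =>
      DifferentiableAt.inv (by fun_prop) (h1 z (ball_subset_closedBall hz.1))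

theorem Z_zpow (a : ℂ) (k : ℤ) (h : 0 ≤ k ∨ a ∉ X) : Z fun z => (z - a) ^ k := by
  refine ⟨ContinuousOn.zpow₀ (by fun_prop) k fun z hz => h.symm.imp_left fun h1 h2 =>
    h1 (sub_eq_zero.1 h2 ▸ hz), ?_⟩
  by_cases hk : k = -1
  swap
  · simpa only [circleIntegral.integral_sub_zpow_of_ne hk] using hasSum_zero
  have ha : a ∉ X := h.resolve_left (by omega)
  simp only [hk, zpow_neg_one]
  have h0 : ∀ m, (0 < r m → r m < ‖a - s m‖) → ∮ z in C(s m, r m), (z - a)⁻¹ = 0 := fun m hm => by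
    rcases (r_nonneg m).eq_or_lt with h2 | h2
    · simp [← h2]
    · exact inv_zero h2.le (hm h2)
  by_cases h1 : ‖a‖ ≤ 1
  · obtain ⟨n, hn⟩ := not_forall.1 fun h2 => ha ⟨h1, h2⟩
    have h2 := not_le.1 (not_or.1 hn).1
    have h3 := (norm_nonneg _).trans_lt h2
    rw [circleIntegral.integral_sub_inv_of_mem_ball (mem_ball_zero_iff.2 (r_in h3 h2.le)),
      ← circleIntegral.integral_sub_inv_of_mem_ball (mem_ball_iff_norm.2 h2)]
    exact hasSum_single n fun m hm => h0 m fun h4 => not_le.1 fun h5 => hm (r_disj h4 h3 h5 h2.le)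
  · rw [inv_zero zero_le_one (by simpa using h1)]
    simpa only [fun m => h0 m fun h4 => not_le.1 fun h5 => h1 (r_in h4 h5).le] using hasSum_zero

theorem Z_pow (a : ℂ) (m : ℕ) (h : m = 0 ∨ a ∉ X) (p : ℂ[X]) :
    Z fun z => p.eval z / (z - a) ^ m := by
  have h1 : ∀ N, Z fun z => ∑ i ∈ Finset.range N,
      (taylor a p).coeff i * (z - a) ^ ((i : ℤ) - m) := fun N => by
    induction N with
    | zero => simpa using (Z_zpow a 0 (Or.inl le_rfl)).mul 0
    | succ N ih =>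
      simpa only [Finset.sum_range_succ] using
        ih.add ((Z_zpow a _ (h.imp_left fun h => by omega)).mul _)
  refine (h1 ((taylor a p).natDegree + 1)).congr fun z hz => ?_
  simp only
  rw [← taylor_eval_sub a p z, eval_eq_sum_range, Finset.sum_div]
  refine Finset.sum_congr rfl fun i _ => ?_
  rcases h with h | h
  · simp [h]
  · rw [zpow_sub₀ (a := z - a) (fun h2 => h (sub_eq_zero.1 h2 ▸ hz)), zpow_natCast, zpow_natCast, mul_div_assoc]

theorem Z_rat (q : ℂ[X]) (hq : ∀ z ∈ X, q.eval z ≠ 0) (p : ℂ[X]) :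
    Z fun z => p.eval z / q.eval z := by
  induction h : q.natDegree using Nat.strong_induction_on generalizing q p with
  | _ d ih =>
  have hq0 : q ≠ 0 := fun h0 => hq 1 (mem_X' (by simp)).1 (by simp [h0])
  rcases d.eq_zero_or_pos with rfl | hd
  · obtain ⟨c, rfl⟩ := natDegree_eq_zero.1 h
    refine ((Z_pow 0 0 (Or.inl rfl) p).mul c⁻¹).congr fun z _ => ?_
    simp [div_eq_inv_mul]
  obtain ⟨a, ha⟩ := IsAlgClosed.exists_root q (natDegree_pos_iff_degree_pos.1 (h ▸ hd)).ne'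
  obtain ⟨q1, h1, h2⟩ := exists_eq_pow_rootMultiplicity_mul_and_not_dvd q hq0 a
  have h3 : 0 < q.rootMultiplicity a := (rootMultiplicity_pos hq0).2 ha
  generalize q.rootMultiplicity a = m at h1 h3
  have h4 : q1 ≠ 0 := fun h4 => h2 (by simp [h4])
  have h5 : q1.natDegree < d := by
    rw [← h, h1, natDegree_mul (pow_ne_zero _ (X_sub_C_ne_zero a)) h4, natDegree_pow,
      natDegree_X_sub_C]
    omega
  have h6 : ∀ z ∈ X, (z - a) ^ m ≠ 0 ∧ q1.eval z ≠ 0 := fun z hz => by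
    simpa [h1, -pow_eq_zero_iff', -ne_eq, mul_ne_zero_iff] using hq z hz
  obtain ⟨u, v, huv⟩ := ((irreducible_X_sub_C a).coprime_iff_not_dvd.2 h2).pow_left (m := m)
  refine ((ih _ h5 q1 (fun z hz => (h6 z hz).2) (p * u) rfl).add
    (Z_pow a m (Or.inr fun h7 => hq a h7 ha) (p * v))).congr fun z hz => ?_
  have h7 := congrArg (eval z) huv
  have h8 := h6 z hz
  simp only [h1, eval_mul, eval_add, eval_pow, eval_sub, eval_X, eval_C, eval_one] at h7 ⊢
  rw [div_add_div _ _ h8.2 h8.1, div_eq_div_iff (mul_ne_zero h8.2 h8.1) (mul_ne_zero h8.1 h8.2)]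
  linear_combination (eval z p * ((z - a) ^ m * eval z q1)) * h7

theorem not_R : ¬ InR X f := fun h => by
  obtain ⟨p, q, hq, h1⟩ := h (1 / 4) (by norm_num)
  obtain ⟨h2, h3⟩ := Z_rat q hq p
  set g := fun z => p.eval z / q.eval z with hg
  have h4 : ∀ n, ‖∮ z in C(s n, r n), g z‖ ≤ π * (1 / 2) ^ (n + 2) := fun n => by
    rcases (r_nonneg n).eq_or_lt with h4 | h4
    · rw [← h4, circleIntegral.integral_radius_zero, norm_zero]
      positivity
    have h5 : ∮ z in C(s n, r n), conj (s n) = 0 := by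
      simpa using (circleIntegral.integral_const_mul (conj (s n)) (fun z => (z - 0) ^ (0 : ℤ))
        (s n) (r n)).trans (by rw [circleIntegral.integral_sub_zpow_of_ne (by norm_num), mul_zero])
    rw [← sub_zero (∮ z in C(s n, r n), g z), ← h5,
      ← circleIntegral.integral_sub (ci h2 n) (circleIntegrable_const _ _ _)]
    refine (circleIntegral.norm_integral_le_of_norm_le_const (C := 1 / 2) h4.le
      fun z hz => ?_).trans (by nlinarith [r_le n, Real.pi_pos])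
    have h6 := h1 z (sph h4 hz)
    have h7 := mem_sphere_iff_norm.1 hz
    rw [f_out fun m => not_lt.1 fun h8 => by
      have := r_disj ((norm_nonneg _).trans_lt h8) h4 h8.le h7.le
      rw [this] at h8
      exact h8.ne h7, norm_sub_rev] at h6
    have h8 := norm_sub_le_norm_sub_add_norm_sub (g z) (conj z) (conj (s n))
    rw [← map_sub, norm_conj] at h8
    have h9 : (1 / 2 : ℝ) ^ (n + 2) ≤ (1 / 2) ^ 2 :=
      pow_le_pow_of_le_one (by norm_num) (by norm_num) (by omega)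
    linarith [r_le n]
  have h5 := h3.norm_le_of_bounded (r_sum.mul_left π) h4
  have h6 : ‖(∮ z in C(0, 1), (z - 0)⁻¹) - ∮ z in C(0, 1), g z‖ ≤ 2 * π * 1 * (1 / 4) := by
    rw [← circleIntegral.integral_sub (circleIntegrable_sub_inv_iff.2 (by simp))
      ((h2.mono sph0).circleIntegrable zero_le_one)]
    refine circleIntegral.norm_integral_le_of_norm_le_const zero_le_one fun z hz => ?_
    have h7 := mem_sphere_zero_iff_norm.1 hz
    have h8 := h1 z (sph0 hz)
    rw [f_out (mem_X' h7).2, ← Complex.inv_eq_conj h7] at h8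
    simpa using h8.le
  rw [circleIntegral.integral_sub_center_inv _ one_ne_zero] at h6
  have h7 := norm_le_insert' (2 * π * I : ℂ) (∮ z in C(0, 1), g z)
  have h8 : ‖(2 * π * I : ℂ)‖ = 2 * π := by simp [abs_of_pos Real.pi_pos]
  linarith [Real.pi_pos]

theorem result : ∃ X : Set ℂ, IsCompact X ∧ X.Nonempty ∧ X ⊆ closure (interior X) ∧
    ∃ f : ℂ → ℂ, InA1 X f ∧ ¬ InR X f := by
  refine ⟨X, X_compact, ⟨1, (mem_X' (by simp)).1⟩, X_dense, f, ⟨f_cont.continuousOn,
    fun z hz => ?_, fun _ => 0, continuousOn_const, fun z hz => ?_⟩, not_R⟩ <;>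
    obtain ⟨c, hc⟩ := f_loc hz
  · exact ((differentiableAt_const c).congr_of_eventuallyEq hc).differentiableWithinAt
  · simp [hc.deriv_eq]

end Pool.Agent.Results.MP_a6d22b_an.No
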